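import Mathlib
import Pool.Agent.H45.SigmaMain

set_option autoImplicit false

namespace Pool.Agent.Results.MP_196b75_an.SigmaNotInDual

open Complex Pool.Agent.H45.SigmaMain

/-- the evaluation point -/
private noncomputable def r : ℂ := 999999 / 1000000

/-- the number which makes the Hadamard product vanish at `r` -/
private noncomputable def L : ℂ :=
  3 * A 1 * r - 2 * I * (A 2 / 2) * r ^ 2 - I * (A 3 / 6) * r ^ 3 + (A 4 / 24) * r ^ 4

private lemma A1 : A 1 = ⟨2048/1025, 64/1025⟩ := by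
  simp only [A, Finset.prod_range_succ, Finset.prod_range_zero, one_mul]
  apply Complex.ext <;> simp [mu]

private lemma A2 : A 2 / 2 = ⟨3144704/1050625, 163872/1050625⟩ := by
  rw [show (2:ℕ) = 1 + 1 from rfl, A_succ, A1]
  apply Complex.ext <;> simp [mu] <;> norm_num

private lemma A3 : A 3 / 6 = ⟨4292169728/1076890625, 872808512/3230671875⟩ := by
  have h2 : A 2 = 2 * ⟨3144704/1050625, 163872/1050625⟩ := by rw [← A2]; ring
  rw [show (3:ℕ) = 2 + 1 from rfl, A_succ, h2]
  apply Complex.ext <;> simp [mu] <;> norm_num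

private lemma A4 : A 4 / 24 = ⟨16477624201216/3311438671875, 1323873648688/3311438671875⟩ := by
  have h3 : A 3 = 6 * ⟨4292169728/1076890625, 872808512/3230671875⟩ := by rw [← A3]; ring
  rw [show (4:ℕ) = 3 + 1 from rfl, A_succ, h3]
  apply Complex.ext <;> simp [mu] <;> norm_num

private lemma L_big : 886 < 4 * ‖L‖ ^ 2 := by
  rw [Complex.sq_norm, Complex.normSq_apply]
  unfold L r
  rw [A1, A2, A3, A4]
  simp [pow_succ]
  norm_num

private lemma L_ne : L ≠ 0 := by
  intro h
  have := L_big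
  rw [h] at this
  norm_num at this

/-- the coefficients of `g(z) = z - (3 z^2 - 2 i z^3 - i z^4 + z^5) / L` -/
private noncomputable def b (n : ℕ) : ℂ :=
  if n = 1 then 1 else if n = 2 then -(3 / L) else if n = 3 then 2 * I / L else
    if n = 4 then I / L else if n = 5 then -(1 / L) else 0

/-- the coefficients of `h(z) = z (1 - z)^(-mu)` -/
private noncomputable def a (n : ℕ) : ℂ :=
  if n = 0 then 0 else A (n - 1) / ((n - 1).factorial : ℂ)

private noncomputable def g (z : ℂ) : ℂ :=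
  z - (1 / L) * (3 * z ^ 2 - 2 * I * z ^ 3 - I * z ^ 4 + z ^ 5)

private noncomputable def g' (z : ℂ) : ℂ :=
  1 - (1 / L) * (6 * z - 6 * I * z ^ 2 - 4 * I * z ^ 3 + 5 * z ^ 4)

private lemma b_big (n : ℕ) (hn : 6 ≤ n) : b n = 0 := by
  unfold b
  rw [if_neg (by omega), if_neg (by omega), if_neg (by omega), if_neg (by omega),
    if_neg (by omega)]

private lemma g_sum (z : ℂ) : HasSum (fun n => b n * z ^ n) (g z) := by
  have h : HasSum (fun n => b n * z ^ n) (∑ n ∈ Finset.range 6, b n * z ^ n) :=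
    hasSum_sum_of_ne_finset_zero (fun n hn => by
      have hn' : 6 ≤ n := by simpa using hn
      rw [b_big n hn', zero_mul])
  have e : ∑ n ∈ Finset.range 6, b n * z ^ n = g z := by
    simp only [Finset.sum_range_succ, Finset.sum_range_zero]
    unfold b g
    norm_num
    ring
  rwa [e] at h

private lemma g_deriv (z : ℂ) : HasDerivAt g (g' z) z := by
  have h := (hasDerivAt_id z).sub (((((hasDerivAt_pow 2 z).const_mul 3).sub
    ((hasDerivAt_pow 3 z).const_mul (2 * I))).sub ((hasDerivAt_pow 4 z).const_mul I)).add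
    (hasDerivAt_pow 5 z) |>.const_mul (1 / L))
  refine (h : HasDerivAt g _ z).congr_deriv ?_
  unfold g'
  push_cast
  ring

private lemma a_coeff (n : ℕ) : a n = iteratedDeriv n hh 0 / (n.factorial : ℂ) := by
  cases n with
  | zero => simp [a, hh]
  | succ n =>
    rw [hh_coeff]
    unfold a
    rw [if_neg (by omega), Nat.add_sub_cancel, Nat.factorial_succ]
    have h1 : (n.factorial : ℂ) ≠ 0 := by exact_mod_cast n.factorial_ne_zero
    have h2 : (n : ℂ) + 1 ≠ 0 := by exact_mod_cast Nat.succ_ne_zero n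
    push_cast
    field_simp

private lemma h_sum (z : ℂ) (hz : ‖z‖ < 1) : HasSum (fun n => a n * z ^ n) (hh z) := by
  have h := Complex.hasSum_taylorSeries_on_ball hh_diff (z := z) (by simpa using hz)
  have e : (fun n : ℕ => ((n.factorial : ℂ))⁻¹ • (z - 0) ^ n • iteratedDeriv n hh 0) =
      fun n => a n * z ^ n := by
    funext n
    rw [a_coeff, smul_eq_mul, smul_eq_mul, sub_zero]
    ring
  rwa [e] at h

private lemma h_deriv (z : ℂ) (hz : ‖z‖ < 1) :
    HasDerivAt hh (E mu z + z * (mu * E (mu + 1) z)) z := by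
  have h := (hasDerivAt_id z).mul (E_hasDerivAt mu z hz)
  refine (h : HasDerivAt hh _ z).congr_deriv ?_
  simp

private lemma h_spiral (z : ℂ) (hz : ‖z‖ < 1) (hz0 : z ≠ 0) : hh z ≠ 0 ∧
    0 < ((32 - I) * (z * (E mu z + z * (mu * E (mu + 1) z)) / hh z)).re := by
  have hE : E mu z ≠ 0 := Complex.exp_ne_zero _
  have hne : (1 - z) ≠ 0 := Complex.slitPlane_ne_zero (one_sub_mem z hz)
  have hE1 : E (mu + 1) z = E mu z / (1 - z) := by
    unfold E
    rw [neg_add, add_mul, Complex.exp_add, neg_mul 1, one_mul,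
      Complex.exp_neg (Complex.log (1 - z)), Complex.exp_log hne]
    rfl
  refine ⟨mul_ne_zero hz0 hE, ?_⟩
  have e : (32 - I) * (z * (E mu z + z * (mu * E (mu + 1) z)) / hh z) =
      32 - I + 64 * (z / (1 - z)) := by
    have h1 : z * (E mu z + z * (mu * E (mu + 1) z)) / hh z = 1 + mu * (z / (1 - z)) := by
      rw [hE1]
      unfold hh
      field_simp
    rw [h1]
    calc (32 - I) * (1 + mu * (z / (1 - z))) = 32 - I + ((32 - I) * mu) * (z / (1 - z)) := by ring
      _ = _ := by rw [lam_mu]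
  rw [e]
  exact re_aux z hz

/-- There are functions `g`, `h` on the unit disc, analytic (given by convergent power series with
coefficients `b n`, `a n`) and normalised (`b 0 = a 0 = 0`, `b 1 = a 1 = 1`), such that
`g` is a polynomial of degree at most five which belongs to the neighbourhood `Sigma_delta(z)` of
the identity for some `delta < 1`, `h` is injective on the disc (and even spirallike), and the
Hadamard product of `g` and `h` has a zero `z₀` with `0 < |z₀| < 1`. -/
theorem result : ∃ (g g' h h' : ℂ → ℂ) (b a : ℕ → ℂ) (δ : ℝ) (z₀ : ℂ),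
    (b 0 = 0 ∧ b 1 = 1 ∧ (∀ n : ℕ, 6 ≤ n → b n = 0) ∧
      (∀ z : ℂ, ‖z‖ < 1 → HasSum (fun n => b n * z ^ n) (g z)) ∧
      (∀ z : ℂ, ‖z‖ < 1 → HasDerivAt g (g' z) z)) ∧
    (0 < δ ∧ δ < 1 ∧ ∀ z : ℂ, 0 < ‖z‖ → ‖z‖ < 1 →
      ‖(g' z - 1) - 1 / z * (g z - z)‖ + ‖(g' z - 1) + 1 / z * (g z - z)‖ < 2 * δ) ∧
    (a 0 = 0 ∧ a 1 = 1 ∧ (∀ z : ℂ, ‖z‖ < 1 → HasSum (fun n => a n * z ^ n) (h z)) ∧
      (∀ z w : ℂ, ‖z‖ < 1 → ‖w‖ < 1 → h z = h w → z = w) ∧
      (∀ z : ℂ, ‖z‖ < 1 → HasDerivAt h (h' z) z) ∧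
      (∀ z : ℂ, 0 < ‖z‖ → ‖z‖ < 1 → h z ≠ 0 ∧ 0 < ((32 - I) * (z * h' z / h z)).re)) ∧
    (0 < ‖z₀‖ ∧ ‖z₀‖ < 1 ∧ HasSum (fun n => b n * a n * z₀ ^ n) 0) := by
  have hLpos : 0 < ‖L‖ := norm_pos_iff.mpr L_ne
  have hs : Real.sqrt 886 / ‖L‖ < 2 := by
    rw [div_lt_iff₀ hLpos, Real.sqrt_lt' (by positivity)]
    have := L_big
    nlinarith
  have hs0 : 0 ≤ Real.sqrt 886 / ‖L‖ := by positivity
  refine ⟨g, g', hh, fun z => E mu z + z * (mu * E (mu + 1) z), b, a,
    (2 + Real.sqrt 886 / ‖L‖) / 4, r, ⟨by simp [b], by simp [b], b_big, fun z _ => g_sum z,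
    fun z _ => g_deriv z⟩, ⟨by positivity, by linarith, ?_⟩,
    ⟨by simp [a], by simp [a, A], h_sum, ?_, h_deriv, ?_⟩, ?_, ?_, ?_⟩
  · intro z hz0 hz
    have hz0' : z ≠ 0 := norm_pos_iff.mp hz0
    have e1 : (g' z - 1) - 1 / z * (g z - z) = - (1 / L) * (z * U z) := by
      unfold U g g'
      field_simp
      ring
    have e2 : (g' z - 1) + 1 / z * (g z - z) = - (1 / L) * (z * V z) := by
      unfold V g g'
      field_simp
      ring
    rw [e1, e2, norm_mul _ (z * U z), norm_mul _ (z * V z), ← mul_add, norm_neg, norm_div, norm_one]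
    have hb := disc_bound z hz
    have h1 : ‖z * U z‖ + ‖z * V z‖ ≤ Real.sqrt 886 := Real.le_sqrt_of_sq_le hb
    have h2 : 1 / ‖L‖ * (‖z * U z‖ + ‖z * V z‖) ≤ Real.sqrt 886 / ‖L‖ := by
      rw [one_div, inv_mul_eq_div]
      exact div_le_div_of_nonneg_right h1 hLpos.le
    linarith
  · intro z w hz hw hzw
    exact hh_inj (by simpa using hz) (by simpa using hw) hzw
  · intro z hz0 hz
    exact h_spiral z hz (norm_pos_iff.mp hz0)
  · unfold r
    norm_num
  · unfold r
    norm_num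
  · have h : HasSum (fun n => b n * a n * r ^ n) (∑ n ∈ Finset.range 6, b n * a n * r ^ n) :=
      hasSum_sum_of_ne_finset_zero (fun n hn => by
        have hn' : 6 ≤ n := by simpa using hn
        rw [b_big n hn', zero_mul, zero_mul])
    have e : ∑ n ∈ Finset.range 6, b n * a n * r ^ n = 0 := by
      simp only [Finset.sum_range_succ, Finset.sum_range_zero]
      have hLdef : L = 3 * A 1 * r - 2 * I * (A 2 / 2) * r ^ 2 - I * (A 3 / 6) * r ^ 3
        + (A 4 / 24) * r ^ 4 := rfl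
      have hL := L_ne
      have a0 : a 0 = 0 := by simp [a]
      have a1 : a 1 = 1 := by simp [a, A]
      have a2 : a 2 = A 1 := by simp [a]
      have a3 : a 3 = A 2 / 2 := by simp [a, Nat.factorial]
      have a4 : a 4 = A 3 / 6 := by
        simp only [a, Nat.factorial]
        norm_num
      have a5 : a 5 = A 4 / 24 := by
        simp only [a, Nat.factorial]
        norm_num
      have b0 : b 0 = 0 := by simp [b]
      have b1 : b 1 = 1 := by simp [b]
      have b2 : b 2 = -(3 / L) := by simp [b]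
      have b3 : b 3 = 2 * I / L := by simp [b]
      have b4 : b 4 = I / L := by simp [b]
      have b5 : b 5 = -(1 / L) := by simp [b]
      rw [a0, a1, a2, a3, a4, a5, b0, b1, b2, b3, b4, b5]
      have h1 : r * L - r * (3 * A 1 * r - 2 * I * (A 2 / 2) * r ^ 2 - I * (A 3 / 6) * r ^ 3
        + (A 4 / 24) * r ^ 4) = 0 := by rw [← hLdef]; ring
      have h2 : 0 + 0 * 0 * r ^ 0 + 1 * 1 * r ^ 1 + -(3 / L) * A 1 * r ^ 2
          + 2 * I / L * (A 2 / 2) * r ^ 3 + I / L * (A 3 / 6) * r ^ 4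
          + -(1 / L) * (A 4 / 24) * r ^ 5 =
          (r * L - r * (3 * A 1 * r - 2 * I * (A 2 / 2) * r ^ 2 - I * (A 3 / 6) * r ^ 3
        + (A 4 / 24) * r ^ 4)) / L := by
        field_simp
        ring
      rw [h2, h1, zero_div]
    rwa [e] at h

end Pool.Agent.Results.MP_196b75_an.SigmaNotInDual
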